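import Pool.Agent.H688.Dope.Equiv

/-!
# Conjugates of positive real radicals
-/

set_option autoImplicit false

namespace Pool.Agent.H688.Dope

open Polynomial

theorem norm_rat (x : ℚ) : ‖(x : ℂ)‖ = |(x : ℝ)| := by
  rw [show ((x : ℚ) : ℂ) = (((x : ℚ) : ℝ) : ℂ) by push_cast; rfl, Complex.norm_real,
    Real.norm_eq_abs]

theorem conj_map' {F : Type} [Field F] [Algebra F ℂ] {t t' : ℂ} (ht : IsIntegral F t)
    (h : minpoly F t = minpoly F t') :
    minpoly F (1 - t) = minpoly F (1 - t') ∧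
      minpoly F (t / (t - 1)) = minpoly F (t' / (t' - 1)) := by
  have hpb : aeval t' (minpoly F (IntermediateField.adjoin.powerBasis ht).gen) = 0 := by
    rw [IntermediateField.adjoin.powerBasis_gen, IntermediateField.minpoly_gen, h]
    exact minpoly.aeval F t'
  let σ : IntermediateField.adjoin F {t} →ₐ[F] ℂ :=
    (IntermediateField.adjoin.powerBasis ht).lift t' hpb
  have hσ : σ (IntermediateField.AdjoinSimple.gen F t) = t' := by
    have := (IntermediateField.adjoin.powerBasis ht).lift_gen t' hpb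
    rwa [IntermediateField.adjoin.powerBasis_gen] at this
  let ι : IntermediateField.adjoin F {t} →ₐ[F] ℂ := (IntermediateField.adjoin F {t}).val
  have hι : ι (IntermediateField.AdjoinSimple.gen F t) = t := rfl
  set g := IntermediateField.AdjoinSimple.gen F t with hg
  constructor
  · have h1 : minpoly F (ι (1 - g)) = minpoly F (1 - g) := minpoly.algHom_eq ι ι.injective _
    have h2 : minpoly F (σ (1 - g)) = minpoly F (1 - g) := minpoly.algHom_eq σ σ.injective _
    rw [map_sub, map_one, hι] at h1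
    rw [map_sub, map_one, hσ] at h2
    rw [h1, h2]
  · have h1 : minpoly F (ι (g / (g - 1))) = minpoly F (g / (g - 1)) :=
      minpoly.algHom_eq ι ι.injective _
    have h2 : minpoly F (σ (g / (g - 1))) = minpoly F (g / (g - 1)) :=
      minpoly.algHom_eq σ σ.injective _
    rw [map_div₀, map_sub, map_one, hι] at h1
    rw [map_div₀, map_sub, map_one, hσ] at h2
    rw [h1, h2]

theorem conj_map {t t' : ℂ} (ht : IsIntegral ℚ t) (h : minpoly ℚ t = minpoly ℚ t') :
    minpoly ℚ (1 - t) = minpoly ℚ (1 - t') ∧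
      minpoly ℚ (t / (t - 1)) = minpoly ℚ (t' / (t' - 1)) := conj_map' ht h

/-- The minimal polynomial of a positive real radical. -/
theorem minpoly_radical {s : ℝ} (hs : 0 < s) {a : ℕ} (ha : 0 < a) {r : ℚ}
    (hr : s ^ a = (r : ℝ)) : ∃ b : ℕ, 0 < b ∧ ∃ ρ : ℚ, 0 < ρ ∧
      minpoly ℚ (s : ℂ) = X ^ b - C ρ := by
  classical
  have hex : ∃ b : ℕ, 0 < b ∧ ∃ ρ : ℚ, s ^ b = (ρ : ℝ) := ⟨a, ha, r, hr⟩
  obtain ⟨hb, ρ, hρ⟩ := Nat.find_spec hex
  set b := Nat.find hex with hbdef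
  have hmin : ∀ k, 0 < k → ∀ ρ' : ℚ, s ^ k = (ρ' : ℝ) → b ≤ k := by
    intro k hk ρ' h
    exact Nat.find_min' hex ⟨hk, ρ', h⟩
  have hρ0 : 0 < ρ := by
    have : 0 < (ρ : ℝ) := by rw [← hρ]; positivity
    exact_mod_cast this
  refine ⟨b, hb, ρ, hρ0, ?_⟩
  have hρC : ((s : ℂ)) ^ b = (ρ : ℂ) := by
    have := congrArg (fun x : ℝ => (x : ℂ)) hρ
    simpa using this
  have hroot : aeval (s : ℂ) (X ^ b - C ρ : ℚ[X]) = 0 := by
    simp [hρC]
  have hmonic : (X ^ b - C ρ : ℚ[X]).Monic := monic_X_pow_sub_C _ hb.ne'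
  have hint : IsIntegral ℚ (s : ℂ) := ⟨X ^ b - C ρ, hmonic, by simpa [aeval_def] using hroot⟩
  have hdvd : minpoly ℚ (s : ℂ) ∣ X ^ b - C ρ := minpoly.dvd _ _ hroot
  have hfm := minpoly.monic hint
  set f := minpoly ℚ (s : ℂ) with hf
  -- the roots of f in ℂ have absolute value s
  have hroots : ∀ z ∈ (f.map (algebraMap ℚ ℂ)).roots, ‖z‖ = s := by
    intro z hz
    have h1 : aeval z f = 0 := by
      have := (mem_roots'.1 hz).2
      rwa [IsRoot, eval_map_algebraMap] at this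
    have h2 : aeval z (X ^ b - C ρ : ℚ[X]) = 0 := aeval_eq_zero_of_dvd_aeval_eq_zero hdvd h1
    have h3 : z ^ b = (ρ : ℂ) := by
      simp only [map_sub, map_pow, aeval_X, aeval_C] at h2
      simpa using sub_eq_zero.1 h2
    have h4 : ‖z‖ ^ b = s ^ b := by
      rw [← norm_pow, h3, hρ]
      rw [norm_rat, abs_of_pos (by exact_mod_cast hρ0)]
    exact (pow_left_inj₀ (norm_nonneg z) hs.le hb.ne').1 h4
  have hsplit : (f.map (algebraMap ℚ ℂ)).Splits := IsAlgClosed.splits _
  have hmonic' : (f.map (algebraMap ℚ ℂ)).Monic := hfm.map _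
  have hc0 := hsplit.coeff_zero_eq_prod_roots_of_monic hmonic'
  have hcard : Multiset.card (f.map (algebraMap ℚ ℂ)).roots = f.natDegree := by
    rw [← hsplit.natDegree_eq_card_roots, natDegree_map]
  have hnorm : ‖(f.map (algebraMap ℚ ℂ)).coeff 0‖ = s ^ f.natDegree := by
    rw [hc0, norm_mul, norm_pow, norm_neg, norm_one, one_pow, one_mul, ← hcard]
    have : ∀ M : Multiset ℂ, (∀ z ∈ M, ‖z‖ = s) → ‖M.prod‖ = s ^ Multiset.card M := by
      intro M
      induction M using Multiset.induction_on with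
      | empty => intro _; simp
      | cons x M ih =>
        intro hM
        rw [Multiset.prod_cons, norm_mul, ih (fun z hz => hM z (Multiset.mem_cons_of_mem hz)),
          hM x (Multiset.mem_cons_self x M), Multiset.card_cons, pow_succ]
        ring
    exact this _ hroots
  have hnat : 0 < f.natDegree := minpoly.natDegree_pos hint
  have hle : b ≤ f.natDegree := by
    apply hmin _ hnat |f.coeff 0|
    rw [← hnorm, coeff_map]
    rw [eq_ratCast, norm_rat]
    push_cast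
    rfl
  refine (eq_of_monic_of_dvd_of_natDegree_le hfm hmonic hdvd ?_).symm
  rw [natDegree_X_pow_sub_C]
  exact hle

theorem irreducible_of_radical {s : ℝ} (hs : 0 < s) {a : ℕ} (ha : 0 < a) {r : ℚ}
    (hr : s ^ a = (r : ℝ)) {t t' : ℂ} (ht : minpoly ℚ t = minpoly ℚ (s : ℂ))
    (H : ∀ b : ℕ, 0 < b → ∀ ρ : ℚ, 0 < ρ → t ^ b = (ρ : ℂ) → t' ^ b = (ρ : ℂ)) :
    IsIntegral ℚ t ∧ IsIntegral ℚ t' ∧ minpoly ℚ t' = minpoly ℚ t := by
  obtain ⟨b, hb, ρ, hρ, hmin⟩ := minpoly_radical hs ha hr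
  have hmonic : (X ^ b - C ρ : ℚ[X]).Monic := monic_X_pow_sub_C _ hb.ne'
  have haev : ∀ z : ℂ, aeval z (X ^ b - C ρ : ℚ[X]) = z ^ b - (ρ : ℂ) := by
    intro z; simp
  have hrt : t ^ b = (ρ : ℂ) := by
    have h1 : aeval t (minpoly ℚ t) = 0 := minpoly.aeval ℚ t
    rw [ht, hmin, haev] at h1
    exact sub_eq_zero.1 h1
  have hrt' := H b hb ρ hρ hrt
  have hint : ∀ z : ℂ, z ^ b = (ρ : ℂ) → IsIntegral ℚ z := by
    intro z hz
    refine ⟨X ^ b - C ρ, hmonic, ?_⟩
    have := haev z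
    rw [hz, sub_self] at this
    simpa [aeval_def] using this
  refine ⟨hint t hrt, hint t' hrt', ?_⟩
  have hirr : Irreducible (X ^ b - C ρ : ℚ[X]) := by
    rw [← hmin, ← ht]
    exact minpoly.irreducible (hint t hrt)
  rw [ht, hmin]
  symm
  apply minpoly.eq_of_irreducible_of_monic hirr _ hmonic
  rw [haev, hrt', sub_self]

end Pool.Agent.H688.Dope
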