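import Mathlib

/-!
# Sparse polynomials with a high order zero

A polynomial whose exponents lie in a set `E` and which is divisible by `(X - μ) ^ (|E| - 1)` has
coefficients determined up to a scalar. Choosing `E` suitably, one further condition
`P^(n-a) (ν) = 0` holds exactly when `q μ ^ a = p ν ^ a`, for prescribed integers `p ≥ q ≥ 1`.
-/

set_option autoImplicit false

namespace Pool.Agent.H688.Dope

open Polynomial

/-- The operator `X d/dX - e`. -/
noncomputable def thetaSub (e : ℕ) (Q : ℂ[X]) : ℂ[X] := X * derivative Q - C (e : ℂ) * Q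

theorem coeff_thetaSub (e : ℕ) (Q : ℂ[X]) (m : ℕ) :
    (thetaSub e Q).coeff m = ((m : ℂ) - e) * Q.coeff m := by
  unfold thetaSub
  rw [coeff_sub, coeff_C_mul]
  cases m with
  | zero => simp
  | succ k => rw [coeff_X_mul, coeff_derivative]; push_cast; ring

theorem dvd_thetaSub {μ : ℂ} {k : ℕ} {Q : ℂ[X]} (e : ℕ) (h : (X - C μ) ^ (k + 1) ∣ Q) :
    (X - C μ) ^ k ∣ thetaSub e Q := by
  unfold thetaSub
  apply dvd_sub
  · have h1 := pow_sub_one_dvd_derivative_of_pow_dvd h
    exact Dvd.dvd.mul_left h1 _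
  · exact Dvd.dvd.mul_left ((pow_dvd_pow _ (Nat.le_succ k)).trans h) _

theorem exists_theta (μ : ℂ) (S : Finset ℕ) : ∀ (k : ℕ) (Q : ℂ[X]),
    (X - C μ) ^ (S.card + k) ∣ Q →
    ∃ Q' : ℂ[X], (∀ m, Q'.coeff m = (∏ e ∈ S, ((m : ℂ) - e)) * Q.coeff m) ∧
      (X - C μ) ^ k ∣ Q' := by
  induction S using Finset.induction_on with
  | empty => intro k Q h; exact ⟨Q, by simp, by simpa using h⟩
  | insert a S ha ih =>
    intro k Q h
    rw [Finset.card_insert_of_notMem ha, show S.card + 1 + k = S.card + k + 1 by ring] at h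
    obtain ⟨Q', h1, h2⟩ := ih k (thetaSub a Q) (dvd_thetaSub a h)
    refine ⟨Q', fun m => ?_, h2⟩
    rw [h1, coeff_thetaSub, Finset.prod_insert ha]; ring

theorem two_term {E : Finset ℕ} {Q : ℂ[X]} (hQ : ∀ m, m ∉ E → Q.coeff m = 0) {μ : ℂ}
    {i j : ℕ} (hi : i ∈ E) (hj : j ∈ E) (hij : i ≠ j)
    (h : (X - C μ) ^ (E.card - 1) ∣ Q) :
    (∏ e ∈ (E.erase i).erase j, ((i : ℂ) - e)) * Q.coeff i * μ ^ i +
      (∏ e ∈ (E.erase i).erase j, ((j : ℂ) - e)) * Q.coeff j * μ ^ j = 0 := by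
  set S := (E.erase i).erase j with hS
  have hcard : S.card + 1 = E.card - 1 := by
    rw [hS, Finset.card_erase_of_mem (Finset.mem_erase.2 ⟨hij.symm, hj⟩),
      Finset.card_erase_of_mem hi]
    have : 2 ≤ E.card := Finset.one_lt_card.2 ⟨i, hi, j, hj, hij⟩
    omega
  rw [← hcard] at h
  obtain ⟨Q', h1, h2⟩ := exists_theta μ S 1 Q h
  have h3 : Q' = C ((∏ e ∈ S, ((i : ℂ) - e)) * Q.coeff i) * X ^ i +
      C ((∏ e ∈ S, ((j : ℂ) - e)) * Q.coeff j) * X ^ j := by
    ext m
    rw [h1]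
    simp only [coeff_add, coeff_C_mul, coeff_X_pow]
    by_cases hmi : m = i
    · subst hmi; simp [hij]
    · by_cases hmj : m = j
      · subst hmj; simp [hmi]
      · simp only [hmi, hmj, if_false, mul_zero, add_zero]
        by_cases hmE : m ∈ E
        · have : m ∈ S := by simp [hS, hmi, hmj, hmE]
          rw [Finset.prod_eq_zero this (by simp), zero_mul]
        · rw [hQ m hmE, mul_zero]
  rw [pow_one] at h2
  have h4 : Q'.eval μ = 0 := by
    rw [dvd_iff_isRoot] at h2; exact h2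
  rw [h3] at h4
  simpa only [eval_add, eval_mul, eval_C, eval_pow, eval_X] using h4

theorem dvd_of_iterate {P : ℂ[X]} (hP : P ≠ 0) {μ : ℂ} {N : ℕ}
    (h : ∀ j < N, (derivative^[j] P).eval μ = 0) : (X - C μ) ^ N ∣ P := by
  rcases Nat.eq_zero_or_pos N with rfl | hN
  · simp
  · rw [← le_rootMultiplicity_iff hP]
    have h1 := (lt_rootMultiplicity_iff_isRoot_iterate_derivative (n := N - 1) (t := μ) hP).2
      (fun m hm => h m (by omega))
    omega

theorem prod_ne_zero_of {S : Finset ℕ} {i : ℕ} (h : i ∉ S) : (∏ e ∈ S, ((i : ℂ) - e)) ≠ 0 := by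
  rw [Finset.prod_ne_zero_iff]
  intro e he h0
  have : (i : ℂ) = e := sub_eq_zero.1 h0
  exact h (by rw [Nat.cast_inj.1 this]; exact he)

/-- The unique polynomial with exponents in `E` and a zero of order `|E| - 1` at `μ`. -/
theorem exists_poly (E : Finset ℕ) {μ : ℂ} (hμ : μ ≠ 0) {n : ℕ} (hn : n ∈ E)
    (hE : ∀ e ∈ E, e ≤ n) : ∃ P : ℂ[X], P.degree = n ∧ (∀ m, m ∉ E → P.coeff m = 0) ∧
      (∀ j < E.card - 1, (derivative^[j] P).eval μ = 0) := by
  let mk : (E → ℂ) →ₗ[ℂ] ℂ[X] :=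
    { toFun := fun c => ∑ e : E, monomial (e : ℕ) (c e)
      map_add' := by intro x y; simp [Finset.sum_add_distrib]
      map_smul' := by intro r x; simp [Finset.smul_sum, smul_monomial] }
  have hmk : ∀ c : E → ℂ, ∀ m, (mk c).coeff m = if h : m ∈ E then c ⟨m, h⟩ else 0 := by
    intro c m
    show (∑ e : E, monomial (e : ℕ) (c e)).coeff m = _
    rw [finsetSum_coeff]
    simp only [coeff_monomial]
    split_ifs with h
    · rw [Finset.sum_eq_single ⟨m, h⟩]
      · simp
      · intro b _ hb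
        rw [if_neg]
        intro h2
        exact hb (Subtype.ext h2)
      · simp
    · apply Finset.sum_eq_zero
      intro b _
      rw [if_neg]
      intro h2
      exact h (h2 ▸ b.2)
  let L : (E → ℂ) →ₗ[ℂ] (Fin (E.card - 1) → ℂ) :=
    { toFun := fun c k => (derivative^[(k : ℕ)] (mk c)).eval μ
      map_add' := by
        intro x y
        funext k
        rw [map_add, iterate_map_add, eval_add]; rfl
      map_smul' := by
        intro r x
        funext k
        simp only [map_smul, iterate_derivative_smul, eval_smul, Pi.smul_apply, RingHom.id_apply] }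
  have hker : LinearMap.ker L ≠ ⊥ := by
    apply LinearMap.ker_ne_bot_of_finrank_lt
    have : 0 < E.card := Finset.card_pos.2 ⟨n, hn⟩
    simp only [Module.finrank_fintype_fun_eq_card, Fintype.card_coe, Fintype.card_fin]
    omega
  obtain ⟨c, hc, hc0⟩ := (Submodule.ne_bot_iff _).1 hker
  have hsupp : ∀ m, m ∉ E → (mk c).coeff m = 0 := by
    intro m hm; rw [hmk, dif_neg hm]
  have hder : ∀ j < E.card - 1, (derivative^[j] (mk c)).eval μ = 0 := by
    intro j hj
    have := congrFun (LinearMap.mem_ker.1 hc) ⟨j, hj⟩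
    exact this
  have hP0 : mk c ≠ 0 := by
    intro h0
    apply hc0
    funext e
    have := hmk c e
    rw [h0] at this
    simpa using this.symm
  have hdvd := dvd_of_iterate hP0 hder
  have hcn : (mk c).coeff n ≠ 0 := by
    intro h0
    apply hP0
    ext m
    rw [coeff_zero]
    by_cases hm : m ∈ E
    · by_cases hmn : m = n
      · rw [hmn, h0]
      · have h1 := two_term hsupp hn hm (Ne.symm hmn) hdvd
        rw [h0, mul_zero, zero_mul, zero_add] at h1
        rcases mul_eq_zero.1 h1 with h2 | h2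
        · rcases mul_eq_zero.1 h2 with h3 | h3
          · exact absurd h3 (prod_ne_zero_of (by simp))
          · exact h3
        · exact absurd h2 (pow_ne_zero _ hμ)
    · exact hsupp m hm
  refine ⟨mk c, ?_, hsupp, hder⟩
  apply le_antisymm
  · rw [degree_le_iff_coeff_zero]
    intro m hm
    apply hsupp
    intro hmE
    have := hE m hmE
    have h2 : n < m := by exact_mod_cast hm
    omega
  · exact le_degree_of_ne_zero hcn

/-- The removed exponents. -/
def rem (a p q : ℕ) : Finset ℕ := (Finset.range (p - q)).image (fun k => a * k)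

/-- The small exponents. -/
def small (a p q : ℕ) : Finset ℕ := Finset.range (a * (p - 1)) \ rem a p q

/-- The exponent set. -/
def expo (a p q : ℕ) : Finset ℕ := insert (a * p) (insert (a * (p - 1)) (small a p q))

theorem rem_subset {a p q : ℕ} (ha : 0 < a) (hq : 0 < q) (hpq : q ≤ p) :
    rem a p q ⊆ Finset.range (a * (p - 1)) := by
  intro x hx
  obtain ⟨k, hk, rfl⟩ := Finset.mem_image.1 hx
  rw [Finset.mem_range] at hk ⊢
  exact Nat.mul_lt_mul_of_pos_left (by omega) ha

theorem prod_rem {a p q : ℕ} (ha : 0 < a) (f : ℕ → ℂ) :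
    ∏ e ∈ rem a p q, f e = ∏ k ∈ Finset.range (p - q), f (a * k) := by
  unfold rem
  rw [Finset.prod_image]
  intro x _ y _ hxy
  exact Nat.eq_of_mul_eq_mul_left ha hxy

theorem telescope (d q : ℕ) : (q : ℂ) * ∏ k ∈ Finset.range d, ((q + d : ℂ) - k) =
    (q + d : ℂ) * ∏ k ∈ Finset.range d, ((q + d : ℂ) - 1 - k) := by
  induction d with
  | zero => simp
  | succ d ih =>
    rw [Finset.prod_range_succ' (fun k : ℕ => ((q + (d + 1 : ℕ) : ℂ) - (k : ℂ))),
      Finset.prod_range_succ (fun k : ℕ => ((q + (d + 1 : ℕ) : ℂ) - 1 - (k : ℂ)))]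
    have h1 : ∀ k : ℕ, ((q + (d + 1 : ℕ) : ℂ) - ((k + 1 : ℕ) : ℂ)) = (q + d : ℂ) - k := by
      intro k; push_cast; ring
    have h2 : ∀ k : ℕ, ((q + (d + 1 : ℕ) : ℂ) - 1 - (k : ℂ)) = (q + d : ℂ) - k := by
      intro k; push_cast; ring
    simp only [h1, h2]
    push_cast
    ring

theorem ratio {a p q : ℕ} (hpq : q ≤ p) :
    (q : ℂ) * ∏ k ∈ Finset.range (p - q), (((a * p : ℕ) : ℂ) - ((a * k : ℕ) : ℂ)) =
    (p : ℂ) * ∏ k ∈ Finset.range (p - q), (((a * p : ℕ) : ℂ) - a - ((a * k : ℕ) : ℂ)) := by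
  obtain ⟨d, rfl⟩ := Nat.exists_eq_add_of_le hpq
  have h0 : q + d - q = d := by omega
  rw [h0]
  have h1 : ∀ k : ℕ, (((a * (q + d) : ℕ) : ℂ) - ((a * k : ℕ) : ℂ)) =
      (a : ℂ) * ((q + d : ℂ) - k) := by
    intro k; push_cast; ring
  have h2 : ∀ k : ℕ, (((a * (q + d) : ℕ) : ℂ) - a - ((a * k : ℕ) : ℂ)) =
      (a : ℂ) * ((q + d : ℂ) - 1 - k) := by
    intro k; push_cast; ring
  simp only [h1, h2, Finset.prod_mul_distrib]
  have h3 := telescope d q
  push_cast
  linear_combination (∏ _i ∈ Finset.range d, (a : ℂ)) * h3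

theorem not_mem_small {a p q : ℕ} (ha : 0 < a) (hp : 0 < p) :
    a * p ∉ insert (a * (p - 1)) (small a p q) ∧ a * (p - 1) ∉ small a p q := by
  have h1 : a * (p - 1) < a * p := Nat.mul_lt_mul_of_pos_left (by omega) ha
  constructor
  · intro h
    rcases Finset.mem_insert.1 h with h2 | h2
    · omega
    · have := Finset.mem_range.1 (Finset.mem_sdiff.1 h2).1
      omega
  · intro h2
    have := Finset.mem_range.1 (Finset.mem_sdiff.1 h2).1
    omega

theorem expo_le {a p q : ℕ} : ∀ e ∈ expo a p q, e ≤ a * p := by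
  intro e he
  have h1 : a * (p - 1) ≤ a * p := Nat.mul_le_mul_left _ (by omega)
  rcases Finset.mem_insert.1 he with h | h
  · omega
  · rcases Finset.mem_insert.1 h with h | h
    · omega
    · have := Finset.mem_range.1 (Finset.mem_sdiff.1 h).1
      omega

/-- The pattern: zeros of the derivatives at `0`, `μ` and `ν`. -/
def Pat (a p q : ℕ) (μ ν : ℂ) (P : ℂ[X]) : Prop :=
  (∀ m ≤ a * p, m ∉ expo a p q → (derivative^[m] P).eval 0 = 0) ∧
    (∀ j < (expo a p q).card - 1, (derivative^[j] P).eval μ = 0) ∧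
    (derivative^[a * (p - 1)] P).eval ν = 0

theorem eval_zero_iterate (P : ℂ[X]) (m : ℕ) :
    (derivative^[m] P).eval 0 = (m.factorial : ℂ) * P.coeff m := by
  rw [← coeff_zero_eq_eval_zero, coeff_iterate_derivative, zero_add, Nat.descFactorial_self,
    nsmul_eq_mul]

/-- The value at `ν` of the derivative of order `a (p - 1)`. -/
theorem eval_high {a p q : ℕ} (ha : 0 < a) (hp : 0 < p) {P : ℂ[X]}
    (hs : ∀ m, m ∉ expo a p q → P.coeff m = 0) (ν : ℂ) :
    (derivative^[a * (p - 1)] P).eval ν =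
      ((a * p).descFactorial (a * (p - 1)) : ℂ) * P.coeff (a * p) * ν ^ a +
        ((a * (p - 1)).factorial : ℂ) * P.coeff (a * (p - 1)) := by
  have hap : a + a * (p - 1) = a * p := by
    obtain ⟨r, rfl⟩ := Nat.exists_eq_succ_of_ne_zero hp.ne'
    simp only [Nat.succ_eq_add_one, Nat.add_sub_cancel]
    ring
  have h1 : derivative^[a * (p - 1)] P =
      C (((a * p).descFactorial (a * (p - 1)) : ℂ) * P.coeff (a * p)) * X ^ a +
        C (((a * (p - 1)).factorial : ℂ) * P.coeff (a * (p - 1))) := by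
    ext m
    rw [coeff_iterate_derivative, nsmul_eq_mul, coeff_add, coeff_C_mul, coeff_X_pow, coeff_C]
    by_cases hm0 : m = 0
    · subst hm0
      rw [if_neg (by omega), if_pos rfl, zero_add, Nat.descFactorial_self]
      ring
    · by_cases hma : m = a
      · subst hma
        rw [if_pos rfl, if_neg hm0, hap]
        ring
      · rw [if_neg hma, if_neg hm0, hs]
        · ring
        · intro hmem
          rcases Finset.mem_insert.1 hmem with h | h
          · omega
          · rcases Finset.mem_insert.1 h with h | h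
            · omega
            · have := Finset.mem_range.1 (Finset.mem_sdiff.1 h).1
              omega
  rw [h1]
  simp only [eval_add, eval_mul, eval_C, eval_pow, eval_X]

theorem descFactorial_cast (n k : ℕ) (h : k ≤ n) :
    ((n.descFactorial k : ℕ) : ℂ) = ∏ i ∈ Finset.range k, ((n : ℂ) - i) := by
  rw [Nat.descFactorial_eq_prod_range, Nat.cast_prod]
  apply Finset.prod_congr rfl
  intro i hi
  rw [Finset.mem_range] at hi
  rw [Nat.cast_sub (by omega)]

/-- The main identity. -/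
theorem key {a p q : ℕ} (ha : 0 < a) (hq : 0 < q) (hpq : q ≤ p) {μ : ℂ} (hμ : μ ≠ 0) {P : ℂ[X]}
    (hdeg : P.degree = (a * p : ℕ))
    (hs : ∀ m, m ∉ expo a p q → P.coeff m = 0)
    (hz : ∀ j < (expo a p q).card - 1, (derivative^[j] P).eval μ = 0) (ν : ℂ) :
    (derivative^[a * (p - 1)] P).eval ν = 0 ↔ (q : ℂ) * μ ^ a = (p : ℂ) * ν ^ a := by
  have hp : 0 < p := lt_of_lt_of_le hq hpq
  have hP0 : P ≠ 0 := by
    intro h0
    rw [h0, degree_zero] at hdeg
    exact WithBot.bot_ne_coe hdeg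
  have hcn : P.coeff (a * p) ≠ 0 := by
    have h1 : P.natDegree = a * p := natDegree_eq_of_degree_eq_some hdeg
    have h2 : P.leadingCoeff ≠ 0 := leadingCoeff_ne_zero.2 hP0
    rwa [leadingCoeff, h1] at h2
  have hlt : a * (p - 1) < a * p := Nat.mul_lt_mul_of_pos_left (by omega) ha
  have hap : a + a * (p - 1) = a * p := by
    obtain ⟨r, rfl⟩ := Nat.exists_eq_succ_of_ne_zero hp.ne'
    simp only [Nat.succ_eq_add_one, Nat.add_sub_cancel]
    ring
  obtain ⟨hn1, hn2⟩ := not_mem_small (q := q) ha hp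
  have hE : ((expo a p q).erase (a * p)).erase (a * (p - 1)) = small a p q := by
    unfold expo
    rw [Finset.erase_insert hn1, Finset.erase_insert hn2]
  have h1 := two_term (μ := μ) hs (i := a * p) (j := a * (p - 1)) (by simp [expo])
    (by simp [expo]) (by omega) (dvd_of_iterate hP0 hz)
  rw [hE] at h1
  set W := ∏ e ∈ small a p q, (((a * p : ℕ) : ℂ) - e) with hW
  set W' := ∏ e ∈ small a p q, (((a * (p - 1) : ℕ) : ℂ) - e) with hW'
  have hW0 : W ≠ 0 := prod_ne_zero_of (fun h => hn1 (Finset.mem_insert_of_mem h))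
  have hW'0 : W' ≠ 0 := prod_ne_zero_of hn2
  have h2 : W * P.coeff (a * p) * μ ^ a + W' * P.coeff (a * (p - 1)) = 0 := by
    have h3 : μ ^ (a * p) = μ ^ a * μ ^ (a * (p - 1)) := by rw [← pow_add, hap]
    rw [h3] at h1
    have h4 : (W * P.coeff (a * p) * μ ^ a + W' * P.coeff (a * (p - 1))) *
        μ ^ (a * (p - 1)) = 0 := by linear_combination h1
    exact (mul_eq_zero.1 h4).resolve_right (pow_ne_zero _ hμ)
  have hsub := rem_subset ha hq hpq
  have hB : W * ∏ k ∈ Finset.range (p - q), (((a * p : ℕ) : ℂ) - ((a * k : ℕ) : ℂ)) =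
      (((a * p).descFactorial (a * (p - 1)) : ℕ) : ℂ) := by
    rw [descFactorial_cast _ _ hlt.le, ← prod_rem ha (fun e => ((a * p : ℕ) : ℂ) - (e : ℂ))]
    exact Finset.prod_sdiff hsub
  have hB' : W' * ∏ k ∈ Finset.range (p - q), (((a * (p - 1) : ℕ) : ℂ) - ((a * k : ℕ) : ℂ)) =
      (((a * (p - 1)).factorial : ℕ) : ℂ) := by
    rw [← Nat.descFactorial_self, descFactorial_cast _ _ le_rfl,
      ← prod_rem ha (fun e => ((a * (p - 1) : ℕ) : ℂ) - (e : ℂ))]
    exact Finset.prod_sdiff hsub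
  set B := ∏ k ∈ Finset.range (p - q), (((a * p : ℕ) : ℂ) - ((a * k : ℕ) : ℂ)) with hBd
  set B' := ∏ k ∈ Finset.range (p - q), (((a * (p - 1) : ℕ) : ℂ) - ((a * k : ℕ) : ℂ)) with hBd'
  have hr : (q : ℂ) * B = (p : ℂ) * B' := by
    have h5 := ratio (a := a) hpq
    have h6 : ((a * (p - 1) : ℕ) : ℂ) = ((a * p : ℕ) : ℂ) - a := by
      rw [← hap]; push_cast; ring
    rw [hBd, hBd', h6]
    exact h5
  have hB'0 : B' ≠ 0 := by
    intro h0
    rw [h0, mul_zero] at hB'
    exact (Nat.cast_ne_zero.2 (Nat.factorial_ne_zero _)) hB'.symm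
  have hq0 : (q : ℂ) ≠ 0 := Nat.cast_ne_zero.2 hq.ne'
  rw [eval_high ha hp hs ν, ← hB, ← hB']
  -- W B c ν^a + W' B' c' = 0, W' c' = - W c μ^a
  have h7 : W * B * P.coeff (a * p) * ν ^ a + W' * B' * P.coeff (a * (p - 1)) =
      W * P.coeff (a * p) * (B * ν ^ a - B' * μ ^ a) := by
    linear_combination B' * h2
  rw [h7]
  constructor
  · intro h8
    have h9 : B * ν ^ a - B' * μ ^ a = 0 :=
      (mul_eq_zero.1 h8).resolve_left (mul_ne_zero hW0 hcn)
    have h10 : B' * ((q : ℂ) * μ ^ a - (p : ℂ) * ν ^ a) = 0 := by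
      linear_combination (-(q : ℂ)) * h9 + ν ^ a * hr
    exact sub_eq_zero.1 ((mul_eq_zero.1 h10).resolve_left hB'0)
  · intro h8
    have h9 : (q : ℂ) * (B * ν ^ a - B' * μ ^ a) = 0 := by
      linear_combination (-B') * h8 + ν ^ a * hr
    rw [(mul_eq_zero.1 h9).resolve_left hq0, mul_zero]

theorem supp_of_pat {a p q : ℕ} {P : ℂ[X]} (hdeg : P.degree = (a * p : ℕ))
    (h : ∀ m ≤ a * p, m ∉ expo a p q → (derivative^[m] P).eval 0 = 0) :
    ∀ m, m ∉ expo a p q → P.coeff m = 0 := by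
  intro m hm
  by_cases hle : m ≤ a * p
  · have h1 := h m hle hm
    rw [eval_zero_iterate] at h1
    exact (mul_eq_zero.1 h1).resolve_left (Nat.cast_ne_zero.2 (Nat.factorial_ne_zero _))
  · apply coeff_eq_zero_of_degree_lt
    rw [hdeg]
    exact_mod_cast not_le.1 hle

/-- A polynomial with the pattern exists exactly when `q μ ^ a = p ν ^ a`. -/
theorem pat_iff {a p q : ℕ} (ha : 0 < a) (hq : 0 < q) (hpq : q ≤ p) {μ : ℂ} (hμ : μ ≠ 0)
    (ν : ℂ) : (∃ P : ℂ[X], P.degree = (a * p : ℕ) ∧ Pat a p q μ ν P) ↔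
      (q : ℂ) * μ ^ a = (p : ℂ) * ν ^ a := by
  constructor
  · rintro ⟨P, hdeg, h1, h2, h3⟩
    exact (key ha hq hpq hμ hdeg (supp_of_pat hdeg h1) h2 ν).1 h3
  · intro h
    obtain ⟨P, hdeg, hs, hz⟩ := exists_poly (expo a p q) hμ (n := a * p) (by simp [expo]) expo_le
    refine ⟨P, hdeg, ?_, hz, (key ha hq hpq hμ hdeg hs hz ν).2 h⟩
    intro m _ hm
    rw [eval_zero_iterate, hs m hm, mul_zero]

end Pool.Agent.H688.Dope
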