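import Pool.Agent.H688.Dope.Core

/-!
# Transfer of the patterns along the equivalence of tuples
-/

set_option autoImplicit false

namespace Pool.Agent.H688.Dope

open Polynomial

open Classical in
/-- The dope matrix of `P` (of degree `n`) with respect to `Λ`: the entry `(i, j)`, `0 ≤ j ≤ n`, is
`1` if the `j`-th derivative of `P` vanishes at `Λ i` and `0` otherwise. -/
noncomputable def dopeMatrix {m : ℕ} (Λ : Fin m → ℂ) (n : ℕ) (P : ℂ[X]) :
    Matrix (Fin m) (Fin (n + 1)) ℕ :=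
  Matrix.of fun i j => if (derivative^[(j : ℕ)] P).eval (Λ i) = 0 then 1 else 0

/-- The set of the dope matrices of the polynomials of degree `n`. -/
def dopeSet {m : ℕ} (n : ℕ) (Λ : Fin m → ℂ) : Set (Matrix (Fin m) (Fin (n + 1)) ℕ) :=
  {M | ∃ P : ℂ[X], P.degree = (n : WithBot ℕ) ∧ M = dopeMatrix Λ n P}

/-- The equivalence `Λ ∼ Λ'`: the same dope matrices in every degree. -/
def DopeEquiv {m : ℕ} (Λ Λ' : Fin m → ℂ) : Prop := ∀ n : ℕ, dopeSet n Λ = dopeSet n Λ'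

theorem DopeEquiv.symm' {m : ℕ} {Λ Λ' : Fin m → ℂ} (h : DopeEquiv Λ Λ') : DopeEquiv Λ' Λ :=
  fun n => (h n).symm

theorem DopeEquiv.transfer {m : ℕ} {Λ Λ' : Fin m → ℂ} (h : DopeEquiv Λ Λ') {n : ℕ} {P : ℂ[X]}
    (hP : P.degree = (n : WithBot ℕ)) : ∃ P' : ℂ[X], P'.degree = (n : WithBot ℕ) ∧
      ∀ i, ∀ j ≤ n, (derivative^[j] P).eval (Λ i) = 0 ↔ (derivative^[j] P').eval (Λ' i) = 0 := by
  have h1 : dopeMatrix Λ n P ∈ dopeSet n Λ' := by
    rw [← h n]
    exact ⟨P, hP, rfl⟩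
  obtain ⟨P', hP', hM⟩ := h1
  refine ⟨P', hP', fun i j hj => ?_⟩
  have h2 := congrFun (congrFun hM i) ⟨j, by omega⟩
  simp only [dopeMatrix, Matrix.of_apply] at h2
  by_cases ha : (derivative^[j] P).eval (Λ i) = 0
  · rw [if_pos ha] at h2
    by_cases hb : (derivative^[j] P').eval (Λ' i) = 0
    · exact ⟨fun _ => hb, fun _ => ha⟩
    · rw [if_neg hb] at h2
      omega
  · rw [if_neg ha] at h2
    by_cases hb : (derivative^[j] P').eval (Λ' i) = 0
    · rw [if_pos hb] at h2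
      omega
    · exact ⟨fun hc => absurd hc ha, fun hc => absurd hc hb⟩

/-- The pattern with general nodes. -/
def PatN (a p q : ℕ) (α μ ν : ℂ) (P : ℂ[X]) : Prop :=
  (∀ m ≤ a * p, m ∉ expo a p q → (derivative^[m] P).eval α = 0) ∧
    (∀ j < (expo a p q).card - 1, (derivative^[j] P).eval μ = 0) ∧
    (derivative^[a * (p - 1)] P).eval ν = 0

theorem iterate_comp (P : ℂ[X]) (α : ℂ) (j : ℕ) :
    derivative^[j] (P.comp (X + C α)) = (derivative^[j] P).comp (X + C α) := by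
  induction j generalizing P with
  | zero => rfl
  | succ j ih =>
    rw [Function.iterate_succ_apply, Function.iterate_succ_apply, ← ih]
    congr 1
    rw [derivative_comp]
    simp

theorem eval_iterate_comp (P : ℂ[X]) (α x : ℂ) (j : ℕ) :
    (derivative^[j] (P.comp (X + C α))).eval x = (derivative^[j] P).eval (x + α) := by
  rw [iterate_comp, eval_comp]
  simp

theorem degree_comp_add {P : ℂ[X]} {n : ℕ} (α : ℂ) (h : P.degree = (n : WithBot ℕ)) :
    (P.comp (X + C α)).degree = (n : WithBot ℕ) := by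
  have hP : P ≠ 0 := by
    intro h0
    rw [h0, degree_zero] at h
    exact WithBot.bot_ne_coe h
  have h1 : P.natDegree = n := natDegree_eq_of_degree_eq_some h
  have h2 : (P.comp (X + C α)).natDegree = n := by
    rw [natDegree_comp, h1, natDegree_X_add_C, mul_one]
  have h3 : P.comp (X + C α) ≠ 0 := by
    intro h0
    rcases comp_eq_zero_iff.1 h0 with h4 | ⟨_, h4⟩
    · exact hP h4
    · have := congrArg natDegree h4
      rw [natDegree_X_add_C, natDegree_C] at this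
      omega
  rw [degree_eq_natDegree h3, h2]

theorem patN_iff {a p q : ℕ} (ha : 0 < a) (hq : 0 < q) (hpq : q ≤ p) {α μ : ℂ} (hμ : μ ≠ α)
    (ν : ℂ) : (∃ P : ℂ[X], P.degree = ((a * p : ℕ) : WithBot ℕ) ∧ PatN a p q α μ ν P) ↔
      (q : ℂ) * (μ - α) ^ a = (p : ℂ) * (ν - α) ^ a := by
  rw [← pat_iff ha hq hpq (sub_ne_zero.2 hμ) (ν - α)]
  constructor
  · rintro ⟨P, hdeg, h1, h2, h3⟩
    refine ⟨P.comp (X + C α), degree_comp_add α hdeg, fun m hm hmE => ?_, fun j hj => ?_, ?_⟩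
    · rw [eval_iterate_comp, zero_add]; exact h1 m hm hmE
    · rw [eval_iterate_comp, sub_add_cancel]; exact h2 j hj
    · rw [eval_iterate_comp, sub_add_cancel]; exact h3
  · rintro ⟨P, hdeg, h1, h2, h3⟩
    refine ⟨P.comp (X + C (-α)), degree_comp_add (-α) hdeg, fun m hm hmE => ?_, fun j hj => ?_, ?_⟩
    · rw [eval_iterate_comp, add_neg_cancel]; exact h1 m hm hmE
    · rw [eval_iterate_comp, ← sub_eq_add_neg]; exact h2 j hj
    · rw [eval_iterate_comp, ← sub_eq_add_neg]; exact h3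

theorem card_expo_le (a p q : ℕ) : (expo a p q).card ≤ a * p + 1 := by
  have h : expo a p q ⊆ Finset.range (a * p + 1) := by
    intro x hx
    have := expo_le x hx
    rw [Finset.mem_range]
    omega
  simpa using Finset.card_le_card h

theorem transfer_pat {m : ℕ} {Λ Λ' : Fin m → ℂ} (h : DopeEquiv Λ Λ') (a p q : ℕ) (i j k : Fin m)
    (hP : ∃ P : ℂ[X], P.degree = ((a * p : ℕ) : WithBot ℕ) ∧ PatN a p q (Λ i) (Λ j) (Λ k) P) :
    ∃ P : ℂ[X], P.degree = ((a * p : ℕ) : WithBot ℕ) ∧ PatN a p q (Λ' i) (Λ' j) (Λ' k) P := by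
  obtain ⟨P, hdeg, h1, h2, h3⟩ := hP
  obtain ⟨P', hdeg', h4⟩ := h.transfer hdeg
  have hc := card_expo_le a p q
  refine ⟨P', hdeg', fun m hm hmE => ?_, fun l hl => ?_, ?_⟩
  · exact (h4 i m hm).1 (h1 m hm hmE)
  · exact (h4 j l (by omega)).1 (h2 l hl)
  · exact (h4 k _ (Nat.mul_le_mul_left _ (by omega))).1 h3

/-- For three nodes, a relation `(Λ j - Λ i) ^ a = r (Λ k - Λ i) ^ a` with a positive rational `r`
passes to equivalent tuples. -/
theorem ratio_transfer {m : ℕ} {Λ Λ' : Fin m → ℂ} (h : DopeEquiv Λ Λ')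
    (hinj : Function.Injective Λ) (hinj' : Function.Injective Λ') {i j k : Fin m} (hij : i ≠ j)
    (hik : i ≠ k) {a : ℕ} (ha : 0 < a) {r : ℚ} (hr : 0 < r)
    (hrel : (Λ j - Λ i) ^ a = (r : ℂ) * (Λ k - Λ i) ^ a) :
    (Λ' j - Λ' i) ^ a = (r : ℂ) * (Λ' k - Λ' i) ^ a := by
  obtain ⟨p, hp⟩ : ∃ p : ℕ, r.num = (p : ℤ) := ⟨r.num.toNat, (Int.toNat_of_nonneg
    (Rat.num_nonneg.2 hr.le)).symm⟩
  have hp0 : 0 < p := by
    have := Rat.num_pos.2 hr
    rw [hp] at this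
    exact_mod_cast this
  have hq0 : 0 < r.den := r.den_pos
  have hqC : (r.den : ℂ) ≠ 0 := Nat.cast_ne_zero.2 hq0.ne'
  have hrC : (r : ℂ) * (r.den : ℂ) = (p : ℂ) := by
    have h1 : r * (r.den : ℚ) = (p : ℚ) := by
      rw [Rat.mul_den_eq_num, hp]; simp
    exact_mod_cast congrArg (fun x : ℚ => (x : ℂ)) h1
  have hij1 : Λ j ≠ Λ i := fun h0 => hij (hinj h0).symm
  have hij2 : Λ' j ≠ Λ' i := fun h0 => hij (hinj' h0).symm
  have hik1 : Λ k ≠ Λ i := fun h0 => hik (hinj h0).symm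
  have hik2 : Λ' k ≠ Λ' i := fun h0 => hik (hinj' h0).symm
  have e1 : (r.den : ℂ) * (Λ j - Λ i) ^ a = (p : ℂ) * (Λ k - Λ i) ^ a := by
    rw [hrel, ← hrC]; ring
  have e2 : (r.den : ℂ) * (Λ' j - Λ' i) ^ a = (p : ℂ) * (Λ' k - Λ' i) ^ a := by
    rcases le_total r.den p with hle | hle
    · exact (patN_iff ha hq0 hle hij2 _).1
        (transfer_pat h a p r.den i j k ((patN_iff ha hq0 hle hij1 _).2 e1))
    · exact ((patN_iff ha hp0 hle hik2 _).1
        (transfer_pat h a r.den p i k j ((patN_iff ha hp0 hle hik1 _).2 e1.symm))).symm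
  have h3 : (r.den : ℂ) * ((Λ' j - Λ' i) ^ a - (r : ℂ) * (Λ' k - Λ' i) ^ a) = 0 := by
    rw [← hrC] at e2
    linear_combination e2
  exact sub_eq_zero.1 ((mul_eq_zero.1 h3).resolve_left hqC)

end Pool.Agent.H688.Dope
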