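import Pool.Agent.H688.Dope.Quad

/-!
# The parameters from solutions of Pell equations
-/

set_option autoImplicit false

namespace Pool.Agent.H688.Dope

open Polynomial

/-- Solutions of Pell's equation avoiding a quadratic form. -/
theorem pell_avoid {D : ℤ} (e : ℤ) (hD0 : 0 < D) (hD : ¬ IsSquare D) :
    ∃ x y : ℤ, 0 < x ∧ 0 < y ∧ x ^ 2 - D * y ^ 2 = 1 ∧ x ^ 2 + 2 * e * x * y + D * y ^ 2 ≠ 0 := by
  obtain ⟨x0, y0, h, hy0⟩ := Pell.exists_of_not_isSquare hD0 hD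
  obtain ⟨x, y, hx, hy, hxy⟩ : ∃ x y : ℤ, 0 < x ∧ 0 < y ∧ x ^ 2 - D * y ^ 2 = 1 := by
    refine ⟨|x0|, |y0|, ?_, abs_pos.2 hy0, by rw [sq_abs, sq_abs]; exact h⟩
    rw [abs_pos]
    rintro rfl
    have : 0 < y0 ^ 2 := by positivity
    nlinarith
  by_cases hs : x ^ 2 + 2 * e * x * y + D * y ^ 2 = 0
  · refine ⟨x ^ 2 + D * y ^ 2, 2 * x * y, by positivity, by positivity, ?_, ?_⟩
    · have : (x ^ 2 + D * y ^ 2) ^ 2 - D * (2 * x * y) ^ 2 = (x ^ 2 - D * y ^ 2) ^ 2 := by ring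
      rw [this, hxy]; norm_num
    · have h1 : (x ^ 2 + D * y ^ 2) ^ 2 + 2 * e * (x ^ 2 + D * y ^ 2) * (2 * x * y) +
          D * (2 * x * y) ^ 2 = -(x ^ 2 - D * y ^ 2) ^ 2 +
          2 * (x ^ 2 + D * y ^ 2) * (x ^ 2 + 2 * e * x * y + D * y ^ 2) := by ring
      rw [h1, hs, hxy]; norm_num
  · exact ⟨x, y, hx, hy, hxy, hs⟩

/-- The parameters for the quadratic `d X ^ 2 - t X + n`. -/
theorem exists_params {t n d : ℤ} (hd : 0 < d) (hn : 0 < n) (ht : 0 < t)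
    (hD0 : 0 < t ^ 2 - 4 * n * d) (hD : ¬ IsSquare (t ^ 2 - 4 * n * d))
    (hbig : 2 * d ≤ t ∨ d - t + n ≤ 0) : ∃ Y1 Y2 Y3 : ℕ, Y1 ≠ Y2 ∧
      t * ((Y1 + 1) * (Y2 + 1)) = d * ((Y1 + Y2 + 1) * (Y3 + 1)) ∧
      n * ((Y1 + 1) * (Y2 + 1)) = d * ((Y3 + 1) * Y3) := by
  obtain ⟨x, y, hx, hy, hxy, hs⟩ := pell_avoid (t - 2 * d) hD0 hD
  set D := t ^ 2 - 4 * n * d with hDdef
  have hA : 0 < x + (t - 2 * d) * y := by
    rcases hbig with h | h
    · have : 0 ≤ (t - 2 * d) * y := mul_nonneg (by linarith) hy.le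
      linarith
    · have h1 : (t - 2 * d) ^ 2 ≤ D := by
        rw [hDdef]; nlinarith
      have h2 : ((t - 2 * d) * y) ^ 2 < x ^ 2 := by
        have : (t - 2 * d) ^ 2 * y ^ 2 ≤ D * y ^ 2 := mul_le_mul_of_nonneg_right h1 (sq_nonneg y)
        nlinarith
      have h3 := abs_lt_of_sq_lt_sq h2 hx.le
      have h4 := (abs_lt.1 h3).1
      linarith
  have hB : 0 < x + (2 * n - t) * y := by
    by_cases h : d - t + n ≤ 0
    · have h1 : (2 * n - t) ^ 2 ≤ D := by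
        rw [hDdef]; nlinarith
      have h2 : ((2 * n - t) * y) ^ 2 < x ^ 2 := by
        have : (2 * n - t) ^ 2 * y ^ 2 ≤ D * y ^ 2 := mul_le_mul_of_nonneg_right h1 (sq_nonneg y)
        nlinarith
      have h3 := abs_lt_of_sq_lt_sq h2 hx.le
      have h4 := (abs_lt.1 h3).1
      linarith
    · have h1 : 2 * d ≤ t := hbig.resolve_right h
      have h2 : 0 ≤ (2 * n - t) * y := mul_nonneg (by linarith) hy.le
      linarith
  obtain ⟨w, hw⟩ : ∃ w, w = 2 * n * y * (x + (t - 2 * d) * y) := ⟨_, rfl⟩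
  obtain ⟨y1, hy1⟩ : ∃ y1, y1 = 1 + 2 * (t - d) * x * y +
    2 * y ^ 2 * (t ^ 2 - t * d - 2 * n * d) := ⟨_, rfl⟩
  obtain ⟨y2, hy2⟩ : ∃ y2, y2 = 2 * d * y * (x + (2 * n - t) * y) := ⟨_, rfl⟩
  have hw0 : 0 < w := by rw [hw]; positivity
  have hy20 : 0 < y2 := by rw [hy2]; positivity
  have hkey : y1 * (x + (2 * n - t) * y) = (x + (t - 2 * d) * y) * (1 + w) := by
    rw [hy1, hw]
    linear_combination (2 * t - 2 * d - 2 * n) * y * hxy
  have hy10 : 0 < y1 := by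
    have h1 : 0 < y1 * (x + (2 * n - t) * y) := by rw [hkey]; positivity
    by_contra hcon
    have h2 := mul_nonpos_of_nonpos_of_nonneg (not_lt.1 hcon) hB.le
    linarith
  have hne : y1 ≠ y2 := by
    intro h0
    apply hs
    have : y1 - y2 = x ^ 2 + 2 * (t - 2 * d) * x * y + D * y ^ 2 := by
      rw [hy1, hy2]
      linear_combination (-1 : ℤ) * hxy
    rw [← this, h0, sub_self]
  have hsum : n * (y1 + y2 - 1) = t * w := by
    rw [hy1, hy2, hw]; ring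
  have e2 : n * (y1 * y2) = d * ((w + 1) * w) := by
    rw [hw] at hkey ⊢
    rw [hy2]
    linear_combination (2 * n * d * y) * hkey
  have e1 : t * (y1 * y2) = d * ((y1 + y2 - 1) * (w + 1)) := by
    have h1 : n * (t * (y1 * y2)) = n * (d * ((y1 + y2 - 1) * (w + 1))) := by
      linear_combination t * e2 - d * (w + 1) * hsum
    exact mul_left_cancel₀ hn.ne' h1
  have c1 : ((y1 - 1).toNat : ℤ) = y1 - 1 := Int.toNat_of_nonneg (by omega)
  have c2 : ((y2 - 1).toNat : ℤ) = y2 - 1 := Int.toNat_of_nonneg (by omega)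
  have c3 : (w.toNat : ℤ) = w := Int.toNat_of_nonneg hw0.le
  refine ⟨(y1 - 1).toNat, (y2 - 1).toNat, w.toNat, ?_, ?_, ?_⟩
  · intro h0
    have : ((y1 - 1).toNat : ℤ) = ((y2 - 1).toNat : ℤ) := by rw [h0]
    rw [c1, c2] at this
    exact hne (by linarith)
  · rw [c1, c2, c3]
    linear_combination e1
  · rw [c1, c2, c3]
    linear_combination e2

/-- Transfer of a quadratic relation with two positive real roots, the larger one at least `1`. -/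
theorem quad_transfer {m : ℕ} {Λ Λ' : Fin m → ℂ} (h : DopeEquiv Λ Λ')
    (hinj : Function.Injective Λ) (hinj' : Function.Injective Λ') {i j k : Fin m} (hij : i ≠ j)
    (hik : i ≠ k) {T N : ℚ} (hT : 0 < T) (hN : 0 < N) (hD0 : 0 < T ^ 2 - 4 * N)
    (hD : ¬ IsSquare (T ^ 2 - 4 * N)) (hbig : 2 ≤ T ∨ 1 - T + N ≤ 0)
    (hrel : (Λ k - Λ i) ^ 2 - (T : ℂ) * (Λ k - Λ i) * (Λ j - Λ i) +
      (N : ℂ) * (Λ j - Λ i) ^ 2 = 0) :
    (Λ' k - Λ' i) ^ 2 - (T : ℂ) * (Λ' k - Λ' i) * (Λ' j - Λ' i) +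
      (N : ℂ) * (Λ' j - Λ' i) ^ 2 = 0 := by
  obtain ⟨d, hd⟩ : ∃ d : ℤ, d = T.den * N.den := ⟨_, rfl⟩
  obtain ⟨t, ht⟩ : ∃ t : ℤ, t = T.num * N.den := ⟨_, rfl⟩
  obtain ⟨n, hn⟩ : ∃ n : ℤ, n = N.num * T.den := ⟨_, rfl⟩
  have hTd : (0 : ℤ) < T.den := by exact_mod_cast T.den_pos
  have hNd : (0 : ℤ) < N.den := by exact_mod_cast N.den_pos
  have hd0 : 0 < d := by rw [hd]; positivity
  have ht0 : 0 < t := by rw [ht]; exact mul_pos (Rat.num_pos.2 hT) hNd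
  have hn0 : 0 < n := by rw [hn]; exact mul_pos (Rat.num_pos.2 hN) hTd
  have hdQ : (0 : ℚ) < d := by exact_mod_cast hd0
  have htT : (t : ℚ) = T * d := by
    rw [ht, hd]; push_cast
    have := Rat.mul_den_eq_num T
    rw [← this]; ring
  have hnN : (n : ℚ) = N * d := by
    rw [hn, hd]; push_cast
    have := Rat.mul_den_eq_num N
    rw [← this]; ring
  have hDQ : ((t ^ 2 - 4 * n * d : ℤ) : ℚ) = (T ^ 2 - 4 * N) * d ^ 2 := by
    push_cast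
    rw [htT, hnN]; ring
  have g1 : 0 < t ^ 2 - 4 * n * d := by
    have : (0 : ℚ) < ((t ^ 2 - 4 * n * d : ℤ) : ℚ) := by rw [hDQ]; positivity
    exact_mod_cast this
  have g2 : ¬ IsSquare (t ^ 2 - 4 * n * d) := by
    rintro ⟨s, hs⟩
    apply hD
    refine ⟨(s : ℚ) / d, ?_⟩
    rw [hs] at hDQ
    push_cast at hDQ
    field_simp
    linear_combination (-1 : ℚ) * hDQ
  have g3 : 2 * d ≤ t ∨ d - t + n ≤ 0 := by
    rcases hbig with hb | hb
    · left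
      have : (2 : ℚ) * d ≤ t := by rw [htT]; nlinarith
      exact_mod_cast this
    · right
      have : (d : ℚ) - t + n ≤ 0 := by rw [htT, hnN]; nlinarith
      exact_mod_cast this
  obtain ⟨Y1, Y2, Y3, hne, q1, q2⟩ := exists_params hd0 hn0 ht0 g1 g2 g3
  have q1' : (T : ℂ) * ((Y1 + 1) * (Y2 + 1)) = (Y1 + Y2 + 1) * (Y3 + 1) := by
    have h1 : (t : ℚ) * ((Y1 + 1) * (Y2 + 1)) = d * ((Y1 + Y2 + 1) * (Y3 + 1)) := by
      exact_mod_cast q1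
    have h2 : T * (((Y1 : ℚ) + 1) * (Y2 + 1)) = (Y1 + Y2 + 1) * (Y3 + 1) := by
      rw [htT] at h1
      apply mul_left_cancel₀ hdQ.ne'
      linear_combination h1
    exact_mod_cast congrArg (fun x : ℚ => (x : ℂ)) h2
  have q2' : (N : ℂ) * ((Y1 + 1) * (Y2 + 1)) = (Y3 + 1) * Y3 := by
    have h1 : (n : ℚ) * ((Y1 + 1) * (Y2 + 1)) = d * ((Y3 + 1) * Y3) := by
      exact_mod_cast q2
    have h2 : N * (((Y1 : ℚ) + 1) * (Y2 + 1)) = (Y3 + 1) * Y3 := by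
      rw [hnN] at h1
      apply mul_left_cancel₀ hdQ.ne'
      linear_combination h1
    exact_mod_cast congrArg (fun x : ℚ => (x : ℂ)) h2
  have hY : ((Y1 : ℂ) + 1) * (Y2 + 1) ≠ 0 := by
    have e1 : (Y1 + 1 : ℂ) ≠ 0 := by exact_mod_cast Nat.succ_ne_zero Y1
    have e2 : (Y2 + 1 : ℂ) ≠ 0 := by exact_mod_cast Nat.succ_ne_zero Y2
    exact mul_ne_zero e1 e2
  have r1 : ((Y1 + 1) * (Y2 + 1) : ℂ) * (Λ k - Λ i) ^ 2 -
        (Y1 + Y2 + 1) * (Y3 + 1) * (Λ k - Λ i) * (Λ j - Λ i) +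
        (Y3 + 1) * Y3 * (Λ j - Λ i) ^ 2 = 0 := by
    rw [← q1', ← q2']
    linear_combination (((Y1 : ℂ) + 1) * (Y2 + 1)) * hrel
  have r2 := quad_param h hinj hinj' hij hik hne r1
  rw [← q1', ← q2'] at r2
  have r3 : (((Y1 : ℂ) + 1) * (Y2 + 1)) * ((Λ' k - Λ' i) ^ 2 -
      (T : ℂ) * (Λ' k - Λ' i) * (Λ' j - Λ' i) + (N : ℂ) * (Λ' j - Λ' i) ^ 2) = 0 := by
    linear_combination r2
  exact (mul_eq_zero.1 r3).resolve_left hY

end Pool.Agent.H688.Dope
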