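import Pool.Agent.H688.Dope.Equiv

/-!
# Trinomials and quadratic relations between three nodes
-/

set_option autoImplicit false

namespace Pool.Agent.H688.Dope

open Polynomial

/-- The trinomial with exponents `n, n - 1, n - 2`, where `n = N + 2`. -/
noncomputable def tri (N : ℕ) (c0 c1 c2 : ℂ) : ℂ[X] :=
  C c0 * X ^ (N + 2) + C c1 * X ^ (N + 1) + C c2 * X ^ N

theorem tri_eval {N k Y : ℕ} (hk : k + Y = N + 1) (c0 c1 c2 x : ℂ) :
    (derivative^[k] (tri N c0 c1 c2)).eval x * ((Y + 1).factorial : ℂ) * x ^ 2 =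
      x ^ (Y + 1) * (((N + 2).factorial : ℂ) * c0 * x ^ 2 +
        ((N + 1).factorial : ℂ) * c1 * (Y + 1) * x + (N.factorial : ℂ) * c2 * ((Y + 1) * Y)) := by
  have h0 : (((N + 2).descFactorial k : ℕ) : ℂ) * ((Y + 1).factorial : ℂ) =
      ((N + 2).factorial : ℂ) := by
    have := Nat.factorial_mul_descFactorial (n := N + 2) (k := k) (by omega)
    rw [show N + 2 - k = Y + 1 by omega] at this
    rw [← this]; push_cast; ring
  have h1 : (((N + 1).descFactorial k : ℕ) : ℂ) * (Y.factorial : ℂ) =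
      ((N + 1).factorial : ℂ) := by
    have := Nat.factorial_mul_descFactorial (n := N + 1) (k := k) (by omega)
    rw [show N + 1 - k = Y by omega] at this
    rw [← this]; push_cast; ring
  have hf : ((Y + 1).factorial : ℂ) = (Y + 1) * (Y.factorial : ℂ) := by
    rw [Nat.factorial_succ]; push_cast; ring
  have hD : (derivative^[k] (tri N c0 c1 c2)).eval x =
      c0 * (((N + 2).descFactorial k : ℕ) : ℂ) * x ^ (Y + 1) +
      c1 * (((N + 1).descFactorial k : ℕ) : ℂ) * x ^ Y +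
      c2 * ((N.descFactorial k : ℕ) : ℂ) * x ^ (N - k) := by
    unfold tri
    rw [iterate_map_add, iterate_map_add, iterate_derivative_C_mul, iterate_derivative_C_mul,
      iterate_derivative_C_mul, iterate_derivative_X_pow_eq_natCast_mul,
      iterate_derivative_X_pow_eq_natCast_mul, iterate_derivative_X_pow_eq_natCast_mul,
      show N + 2 - k = Y + 1 by omega, show N + 1 - k = Y by omega]
    simp only [eval_add, eval_mul, eval_C, eval_natCast, eval_pow, eval_X]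
    ring
  rw [hD]
  rcases Nat.eq_zero_or_pos Y with hY | hY
  · subst hY
    have hz : N.descFactorial k = 0 := Nat.descFactorial_eq_zero_iff_lt.2 (by omega)
    rw [hz, ← h0, ← h1]
    simp only [Nat.cast_zero, hf]
    simp
    ring
  · obtain ⟨Z, rfl⟩ := Nat.exists_eq_succ_of_ne_zero hY.ne'
    have h2 : ((N.descFactorial k : ℕ) : ℂ) * (Z.factorial : ℂ) = (N.factorial : ℂ) := by
      have := Nat.factorial_mul_descFactorial (n := N) (k := k) (by omega)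
      rw [show N - k = Z by omega] at this
      rw [← this]; push_cast; ring
    have hg : ((Z.succ).factorial : ℂ) = (Z + 1) * (Z.factorial : ℂ) := by
      rw [Nat.factorial_succ]; push_cast; ring
    rw [show N - k = Z by omega, ← h0, ← h1, ← h2, hf, hg]
    simp only [Nat.succ_eq_add_one, pow_succ]
    push_cast
    ring

/-- The pattern for a quadratic relation, `n = N + 2`, with `y₁ = Y₁ + 1` and so on, where
`k_i = n - y_i`. -/
def PatQ (N k1 k2 k3 : ℕ) (α μ ν : ℂ) (P : ℂ[X]) : Prop :=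
  (∀ m < N, (derivative^[m] P).eval α = 0) ∧ (derivative^[k1] P).eval μ = 0 ∧
    (derivative^[k2] P).eval μ = 0 ∧ (derivative^[k3] P).eval ν = 0

theorem eq_tri {N : ℕ} {P : ℂ[X]} (hdeg : P.degree = ((N + 2 : ℕ) : WithBot ℕ))
    (h : ∀ m < N, (derivative^[m] P).eval 0 = 0) :
    P = tri N (P.coeff (N + 2)) (P.coeff (N + 1)) (P.coeff N) := by
  ext m
  unfold tri
  simp only [coeff_add, coeff_C_mul, coeff_X_pow]
  by_cases h1 : m = N + 2
  · subst h1; simp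
  · by_cases h2 : m = N + 1
    · subst h2; simp
    · by_cases h3 : m = N
      · subst h3; simp
      · simp only [h1, h2, h3, if_false, mul_zero, add_zero]
        by_cases h4 : m < N
        · have h5 := h m h4
          rw [eval_zero_iterate] at h5
          exact (mul_eq_zero.1 h5).resolve_left (Nat.cast_ne_zero.2 (Nat.factorial_ne_zero _))
        · apply coeff_eq_zero_of_degree_lt
          rw [hdeg]
          exact_mod_cast (by omega : N + 2 < m)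

theorem tri_zero_iff {N k Y : ℕ} (hk : k + Y = N + 1) (c0 c1 c2 : ℂ) {x : ℂ} (hx : x ≠ 0) :
    (derivative^[k] (tri N c0 c1 c2)).eval x = 0 ↔
      ((N + 2).factorial : ℂ) * c0 * x ^ 2 +
        ((N + 1).factorial : ℂ) * c1 * (Y + 1) * x + (N.factorial : ℂ) * c2 * ((Y + 1) * Y) = 0 := by
  have h := tri_eval hk c0 c1 c2 x
  constructor
  · intro h0
    rw [h0, zero_mul, zero_mul] at h
    exact (mul_eq_zero.1 h.symm).resolve_left (pow_ne_zero _ hx)
  · intro h0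
    rw [h0, mul_zero] at h
    have h1 := (mul_eq_zero.1 h).resolve_right (pow_ne_zero _ hx)
    exact (mul_eq_zero.1 h1).resolve_right (Nat.cast_ne_zero.2 (Nat.factorial_ne_zero _))

theorem patQ_iff0 {N k1 k2 k3 Y1 Y2 Y3 : ℕ} (h1 : k1 + Y1 = N + 1) (h2 : k2 + Y2 = N + 1)
    (h3 : k3 + Y3 = N + 1) (hne : Y1 ≠ Y2) {μ ν : ℂ} (hμ : μ ≠ 0) (hν : ν ≠ 0) :
    (∃ P : ℂ[X], P.degree = ((N + 2 : ℕ) : WithBot ℕ) ∧ PatQ N k1 k2 k3 0 μ ν P) ↔
      ((Y1 + 1) * (Y2 + 1) : ℂ) * ν ^ 2 - (Y1 + Y2 + 1) * (Y3 + 1) * ν * μ +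
        (Y3 + 1) * Y3 * μ ^ 2 = 0 := by
  have hneC : (Y1 : ℂ) - Y2 ≠ 0 := by
    rw [sub_ne_zero]; exact_mod_cast hne
  have hY1 : (Y1 + 1 : ℂ) ≠ 0 := by exact_mod_cast Nat.succ_ne_zero Y1
  have hY2 : (Y2 + 1 : ℂ) ≠ 0 := by exact_mod_cast Nat.succ_ne_zero Y2
  have f0 : ((N + 2).factorial : ℂ) ≠ 0 := Nat.cast_ne_zero.2 (Nat.factorial_ne_zero _)
  have f1 : ((N + 1).factorial : ℂ) ≠ 0 := Nat.cast_ne_zero.2 (Nat.factorial_ne_zero _)
  have f2 : (N.factorial : ℂ) ≠ 0 := Nat.cast_ne_zero.2 (Nat.factorial_ne_zero _)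
  constructor
  · rintro ⟨P, hdeg, ha, hb, hc, hd⟩
    have hP := eq_tri hdeg ha
    have hc0 : P.coeff (N + 2) ≠ 0 := by
      have e1 : P.natDegree = N + 2 := natDegree_eq_of_degree_eq_some hdeg
      have hP0 : P ≠ 0 := by
        intro h0
        rw [h0, degree_zero] at hdeg
        exact WithBot.bot_ne_coe hdeg
      have e2 : P.leadingCoeff ≠ 0 := leadingCoeff_ne_zero.2 hP0
      rwa [leadingCoeff, e1] at e2
    set c0 := P.coeff (N + 2)
    set c1 := P.coeff (N + 1)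
    set c2 := P.coeff N
    rw [hP] at hb hc hd
    rw [tri_zero_iff h1 _ _ _ hμ] at hb
    rw [tri_zero_iff h2 _ _ _ hμ] at hc
    rw [tri_zero_iff h3 _ _ _ hν] at hd
    set g0 := ((N + 2).factorial : ℂ) * c0
    set g1 := ((N + 1).factorial : ℂ) * c1
    set g2 := (N.factorial : ℂ) * c2
    have hg0 : g0 ≠ 0 := mul_ne_zero f0 hc0
    have e1 : ((Y1 : ℂ) - Y2) * (g1 * μ + g2 * (Y1 + Y2 + 1)) = 0 := by
      linear_combination hb - hc
    have e2 : g1 * μ + g2 * (Y1 + Y2 + 1) = 0 := (mul_eq_zero.1 e1).resolve_left hneC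
    have e3 : g0 * μ ^ 2 = g2 * ((Y1 + 1) * (Y2 + 1)) := by
      linear_combination hb - (Y1 + 1 : ℂ) * e2
    have hg2 : g2 ≠ 0 := by
      intro h0
      rw [h0, zero_mul] at e3
      exact mul_ne_zero hg0 (pow_ne_zero 2 hμ) e3
    have e4 : g2 * (((Y1 + 1) * (Y2 + 1) : ℂ) * ν ^ 2 - (Y1 + Y2 + 1) * (Y3 + 1) * ν * μ +
        (Y3 + 1) * Y3 * μ ^ 2) = 0 := by
      linear_combination μ ^ 2 * hd - ν ^ 2 * e3 - (Y3 + 1 : ℂ) * ν * μ * e2
    exact (mul_eq_zero.1 e4).resolve_left hg2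
  · intro h
    set c0 : ℂ := ((Y1 + 1) * (Y2 + 1) : ℂ) / ((N + 2).factorial : ℂ) with hc0d
    set c1 : ℂ := -((Y1 + Y2 + 1 : ℂ) * μ) / ((N + 1).factorial : ℂ) with hc1d
    set c2 : ℂ := μ ^ 2 / (N.factorial : ℂ) with hc2d
    have g0 : ((N + 2).factorial : ℂ) * c0 = (Y1 + 1) * (Y2 + 1) := by
      rw [hc0d]; field_simp
    have g1 : ((N + 1).factorial : ℂ) * c1 = -((Y1 + Y2 + 1 : ℂ) * μ) := by
      rw [hc1d]; field_simp
    have g2 : (N.factorial : ℂ) * c2 = μ ^ 2 := by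
      rw [hc2d]; field_simp
    have hc0 : c0 ≠ 0 := by
      intro h0
      rw [h0, mul_zero] at g0
      exact mul_ne_zero hY1 hY2 g0.symm
    refine ⟨tri N c0 c1 c2, ?_, ?_, ?_, ?_, ?_⟩
    · apply le_antisymm
      · rw [degree_le_iff_coeff_zero]
        intro m hm
        have hm' : N + 2 < m := by exact_mod_cast hm
        unfold tri
        simp only [coeff_add, coeff_C_mul, coeff_X_pow]
        rw [if_neg (by omega), if_neg (by omega), if_neg (by omega)]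
        simp
      · apply le_degree_of_ne_zero
        unfold tri
        simp only [coeff_add, coeff_C_mul, coeff_X_pow]
        simpa using hc0
    · intro m hm
      rw [eval_zero_iterate]
      have : (tri N c0 c1 c2).coeff m = 0 := by
        unfold tri
        simp only [coeff_add, coeff_C_mul, coeff_X_pow]
        rw [if_neg (by omega), if_neg (by omega), if_neg (by omega)]
        simp
      rw [this, mul_zero]
    · rw [tri_zero_iff h1 _ _ _ hμ, g0, g1, g2]; ring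
    · rw [tri_zero_iff h2 _ _ _ hμ, g0, g1, g2]; ring
    · rw [tri_zero_iff h3 _ _ _ hν, g0, g1, g2]
      linear_combination h

theorem patQ_iff {N k1 k2 k3 Y1 Y2 Y3 : ℕ} (h1 : k1 + Y1 = N + 1) (h2 : k2 + Y2 = N + 1)
    (h3 : k3 + Y3 = N + 1) (hne : Y1 ≠ Y2) {α μ ν : ℂ} (hμ : μ ≠ α) (hν : ν ≠ α) :
    (∃ P : ℂ[X], P.degree = ((N + 2 : ℕ) : WithBot ℕ) ∧ PatQ N k1 k2 k3 α μ ν P) ↔
      ((Y1 + 1) * (Y2 + 1) : ℂ) * (ν - α) ^ 2 -
        (Y1 + Y2 + 1) * (Y3 + 1) * (ν - α) * (μ - α) + (Y3 + 1) * Y3 * (μ - α) ^ 2 = 0 := by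
  rw [← patQ_iff0 h1 h2 h3 hne (sub_ne_zero.2 hμ) (sub_ne_zero.2 hν)]
  constructor
  · rintro ⟨P, hdeg, ha, hb, hc, hd⟩
    refine ⟨P.comp (X + C α), degree_comp_add α hdeg, fun m hm => ?_, ?_, ?_, ?_⟩
    · rw [eval_iterate_comp, zero_add]; exact ha m hm
    · rw [eval_iterate_comp, sub_add_cancel]; exact hb
    · rw [eval_iterate_comp, sub_add_cancel]; exact hc
    · rw [eval_iterate_comp, sub_add_cancel]; exact hd
  · rintro ⟨P, hdeg, ha, hb, hc, hd⟩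
    refine ⟨P.comp (X + C (-α)), degree_comp_add (-α) hdeg, fun m hm => ?_, ?_, ?_, ?_⟩
    · rw [eval_iterate_comp, add_neg_cancel]; exact ha m hm
    · rw [eval_iterate_comp, ← sub_eq_add_neg]; exact hb
    · rw [eval_iterate_comp, ← sub_eq_add_neg]; exact hc
    · rw [eval_iterate_comp, ← sub_eq_add_neg]; exact hd

theorem transfer_patQ {m : ℕ} {Λ Λ' : Fin m → ℂ} (h : DopeEquiv Λ Λ') {N k1 k2 k3 : ℕ}
    (h1 : k1 ≤ N + 2) (h2 : k2 ≤ N + 2) (h3 : k3 ≤ N + 2) (i j k : Fin m)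
    (hP : ∃ P : ℂ[X], P.degree = ((N + 2 : ℕ) : WithBot ℕ) ∧
      PatQ N k1 k2 k3 (Λ i) (Λ j) (Λ k) P) :
    ∃ P : ℂ[X], P.degree = ((N + 2 : ℕ) : WithBot ℕ) ∧
      PatQ N k1 k2 k3 (Λ' i) (Λ' j) (Λ' k) P := by
  obtain ⟨P, hdeg, ha, hb, hc, hd⟩ := hP
  obtain ⟨P', hdeg', h4⟩ := h.transfer hdeg
  refine ⟨P', hdeg', fun l hl => ?_, ?_, ?_, ?_⟩
  · exact (h4 i l (by omega)).1 (ha l hl)
  · exact (h4 j k1 h1).1 hb
  · exact (h4 j k2 h2).1 hc
  · exact (h4 k k3 h3).1 hd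

/-- Transfer of a quadratic relation with parameters. -/
theorem quad_param {m : ℕ} {Λ Λ' : Fin m → ℂ} (h : DopeEquiv Λ Λ')
    (hinj : Function.Injective Λ) (hinj' : Function.Injective Λ') {i j k : Fin m} (hij : i ≠ j)
    (hik : i ≠ k) {Y1 Y2 Y3 : ℕ} (hne : Y1 ≠ Y2)
    (hrel : ((Y1 + 1) * (Y2 + 1) : ℂ) * (Λ k - Λ i) ^ 2 -
        (Y1 + Y2 + 1) * (Y3 + 1) * (Λ k - Λ i) * (Λ j - Λ i) +
        (Y3 + 1) * Y3 * (Λ j - Λ i) ^ 2 = 0) :
    ((Y1 + 1) * (Y2 + 1) : ℂ) * (Λ' k - Λ' i) ^ 2 -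
        (Y1 + Y2 + 1) * (Y3 + 1) * (Λ' k - Λ' i) * (Λ' j - Λ' i) +
        (Y3 + 1) * Y3 * (Λ' j - Λ' i) ^ 2 = 0 := by
  obtain ⟨N, hN⟩ : ∃ N, N = Y1 + Y2 + Y3 := ⟨_, rfl⟩
  have e1 : (N + 1 - Y1) + Y1 = N + 1 := by omega
  have e2 : (N + 1 - Y2) + Y2 = N + 1 := by omega
  have e3 : (N + 1 - Y3) + Y3 = N + 1 := by omega
  have hij1 : Λ j ≠ Λ i := fun h0 => hij (hinj h0).symm
  have hij2 : Λ' j ≠ Λ' i := fun h0 => hij (hinj' h0).symm
  have hik1 : Λ k ≠ Λ i := fun h0 => hik (hinj h0).symm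
  have hik2 : Λ' k ≠ Λ' i := fun h0 => hik (hinj' h0).symm
  exact (patQ_iff e1 e2 e3 hne hij2 hik2).1
    (transfer_patQ h (by omega) (by omega) (by omega) i j k
      ((patQ_iff e1 e2 e3 hne hij1 hik1).2 hrel))

end Pool.Agent.H688.Dope
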